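import Pool.Agent.Lib.MP_365485_an.MN.Main
import Pool.Agent.Lib.MP_365485_an.MN.QNE

/-!
# MP_acb846_an: the rational-indexed nest on `ℓ²(ℚ)`, and every maximal nest, is the lattice of one compact operator
-/

set_option autoImplicit false

namespace Pool.Agent.Results.MP_acb846_an.EveryMaximalNest

open Pool.Agent.Lib.MP365485.MN

universe u

/-- the Hilbert space `ℓ²(ℚ)` -/
abbrev H : Type := lp (fun _ : ℚ => ℂ) 2

/-- `Q_t^+`: the `f` in `ℓ²(ℚ)` with `f(q) = 0` for all `q > t` -/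
def Qplus (t : ℝ) : Submodule ℂ H where
  carrier := {f | ∀ q : ℚ, t < q → f q = 0}
  add_mem' := fun {f g} hf hg q hq => by
    have h1 : f q = 0 := hf q hq
    have h2 : g q = 0 := hg q hq
    simp [h1, h2]
  zero_mem' := fun _ _ => rfl
  smul_mem' := fun c f hf q hq => by
    have h1 : f q = 0 := hf q hq
    simp [h1]

/-- `Q_t^-`: the `f` in `ℓ²(ℚ)` with `f(q) = 0` for all `q ≥ t` -/
def Qminus (t : ℝ) : Submodule ℂ H where
  carrier := {f | ∀ q : ℚ, t ≤ q → f q = 0}
  add_mem' := fun {f g} hf hg q hq => by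
    have h1 : f q = 0 := hf q hq
    have h2 : g q = 0 := hg q hq
    simp [h1, h2]
  zero_mem' := fun _ _ => rfl
  smul_mem' := fun c f hf q hq => by
    have h1 : f q = 0 := hf q hq
    simp [h1]

/-- the nest: all `Q_t^+` and `Q_t^-`, `t ∈ ℝ`, together with `{0}` and `ℓ²(ℚ)` -/
def nest : Set (Submodule ℂ H) := {⊥, ⊤} ∪ Set.range Qplus ∪ Set.range Qminus

/-- `Lat T`: the closed subspaces `M` with `T M ⊆ M` -/
def Lat {K : Type u} [NormedAddCommGroup K] [InnerProductSpace ℂ K] (T : K →L[ℂ] K) :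
    Set (Submodule ℂ K) := {M | IsClosed (M : Set K) ∧ ∀ x ∈ M, T x ∈ M}

/-- `N` is a maximal nest: a maximal chain (for inclusion) of closed subspaces. -/
def IsMaximalNest {K : Type u} [NormedAddCommGroup K] [InnerProductSpace ℂ K]
    (N : Set (Submodule ℂ K)) : Prop :=
  (∀ M ∈ N, IsClosed (M : Set K)) ∧ (∀ M ∈ N, ∀ M' ∈ N, M ≤ M' ∨ M' ≤ M) ∧
    ∀ M : Submodule ℂ K, IsClosed (M : Set K) → (∀ M' ∈ N, M' ≤ M ∨ M ≤ M') → M ∈ N

/-- `T` is a norm limit of nilpotent operators of finite rank. -/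
def LimitOfNilpotents {K : Type u} [NormedAddCommGroup K] [InnerProductSpace ℂ K]
    (T : K →L[ℂ] K) : Prop :=
  ∀ ε : ℝ, 0 < ε → ∃ T₀ : K →L[ℂ] K, (∃ n : ℕ, T₀ ^ n = 0) ∧
    FiniteDimensional ℂ (LinearMap.range (T₀ : K →ₗ[ℂ] K)) ∧ ‖T - T₀‖ < ε

/-- `ℓ²(ℚ)` is separable. -/
theorem separable : TopologicalSpace.SeparableSpace H := by
  rw [← TopologicalSpace.isSeparable_univ_iff]
  have h1 : TopologicalSpace.IsSeparable (closure ((Submodule.span ℂ (Set.range fun q : ℚ =>
      (lp.single 2 q (1 : ℂ) : H)) : Submodule ℂ H) : Set H)) :=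
    ((Set.countable_range _).isSeparable.span (R := ℂ)).closure
  refine h1.mono ?_
  intro f _
  have h2 := lp.hasSum_single (E := fun _ : ℚ => ℂ) (p := 2) (by norm_num) f
  refine mem_closure_of_tendsto h2 (Filter.Eventually.of_forall fun s => ?_)
  refine Submodule.sum_mem _ fun q _ => ?_
  have h3 : (lp.single 2 q (f q) : H) = f q • lp.single 2 q (1 : ℂ) := by
    rw [← lp.single_smul]; simp
  rw [h3]
  exact Submodule.smul_mem _ _ (Submodule.subset_span ⟨q, rfl⟩)

/-- **The rational-indexed maximal nest on `ℓ²(ℚ)` is the lattice of one compact operator; so is every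
maximal nest on every separable complex Hilbert space.** -/
theorem result :
    (∃ T : H →L[ℂ] H, Lat T = nest ∧ IsCompactOperator T ∧ LimitOfNilpotents T) ∧
    ∀ (K : Type u) [NormedAddCommGroup K] [InnerProductSpace ℂ K] [CompleteSpace K]
      [TopologicalSpace.SeparableSpace K] (N : Set (Submodule ℂ K)), IsMaximalNest N →
      ∃ T : K →L[ℂ] K, Lat T = N ∧ IsCompactOperator T ∧ LimitOfNilpotents T := by
  refine ⟨?_, ?_⟩
  · have hQ : MaxNest nest := specQNE Qplus Qminus (fun _ _ => Iff.rfl) (fun _ _ => Iff.rfl)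
    have hsep : TopologicalSpace.SeparableSpace H := separable
    obtain ⟨T, h1, h2, h3⟩ := main.{0} H nest hQ
    exact ⟨T, Set.ext fun M => h3 M, h1, h2⟩
  · intro K _ _ _ _ N hN
    obtain ⟨T, h1, h2, h3⟩ := main.{u} K N ⟨hN.1, hN.2.1, hN.2.2⟩
    exact ⟨T, Set.ext fun M => h3 M, h1, h2⟩

end Pool.Agent.Results.MP_acb846_an.EveryMaximalNest
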